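import Mathlib

/-!
# Twist functions (part T of the ergodic sphere): definitions

A profile `χ` with parameter `R < 1` is a smooth function, positive for `u < R`, zero for `R ≤ u`.
`J χ a = ∫_0^1 χ (a² + y²) dy`, `K χ x = ∫_x^1 J χ a da`, `Del χ u = ∫_u^1 χ v dv`.
-/

set_option autoImplicit false

open scoped ContDiff

namespace Pool.Agent.Lib.MP_d2b992_gt.T

/-- Profile functions. -/
structure IsProfile (R : ℝ) (χ : ℝ → ℝ) : Prop where
  R0 : 0 < R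
  R1 : R < 1
  smooth : ContDiff ℝ ∞ χ
  pos : ∀ u, u < R → 0 < χ u
  zero : ∀ u, R ≤ u → χ u = 0

/-- The line integral at distance `a` of the origin. -/
noncomputable def J (χ : ℝ → ℝ) (a : ℝ) : ℝ := ∫ y in (0 : ℝ)..1, χ (a ^ 2 + y ^ 2)

/-- The integral of `J` over `[x, 1]`. -/
noncomputable def K (χ : ℝ → ℝ) (x : ℝ) : ℝ := ∫ a in x..1, J χ a

/-- The tail of the profile. -/
noncomputable def Del (χ : ℝ → ℝ) (u : ℝ) : ℝ := ∫ v in u..1, χ v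

/-- The twist function of the cap `p`. -/
noncomputable def FF (χ : ℝ → ℝ) (c : ℝ) : ℝ := 4 * K χ c - 2 * Real.pi

/-- The twist function of the caps `q`. -/
noncomputable def GG (χ : ℝ → ℝ) (x : ℝ) : ℝ := Real.pi - 4 * K χ x

/-- The function `h_p` of the cap `p`. -/
noncomputable def hp (χ : ℝ → ℝ) (u : ℝ) : ℝ := (1 - u) ^ (-(1 / 2) : ℝ) + Del χ u

/-- The function `h_q` of the caps `q`. -/
noncomputable def hq (χ : ℝ → ℝ) (u : ℝ) : ℝ := (1 - u) ^ (-(1 / 2) : ℝ) - Del χ u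

/-- The function `ψ = h (1 - cos² φ) |cos φ|` in terms of `C = cos φ` for the sign `e`
(`e = 1` for the cap `p`, `e = -1` for the caps `q`). -/
noncomputable def psi (χ : ℝ → ℝ) (e : ℝ) (C : ℝ) : ℝ := 1 + e * Del χ (1 - C ^ 2) * |C|

/-- The parameters `b, s` and the profiles of the caps `p` and `q`. -/
structure Prof (b s : ℝ) (χp χq : ℝ → ℝ) : Prop where
  b0 : 0 < b
  b1 : b < 1 / 2
  s0 : 0 < s
  sb : s ^ 2 + b ^ 2 = 1
  p : IsProfile (s ^ 2) χp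
  q : IsProfile (b ^ 2) χq
  ltp : ∀ u, u < 1 → χp u < 1 / 2 * (1 - u) ^ (-(3 / 2) : ℝ)
  intp : ∫ v in (0 : ℝ)..1, χp v = 1
  intq : ∫ v in (0 : ℝ)..1, χq v = 1 / 2

/-- The twist functions `F` (cap `p`) and `G` (caps `q`): the interface with the dynamics. -/
structure Tw (b s : ℝ) (F G : ℝ → ℝ) : Prop where
  b0 : 0 < b
  s0 : 0 < s
  sb : s ^ 2 + b ^ 2 = 1
  F_smooth : ContDiff ℝ ∞ F
  F_zero : ∀ c, c ≤ -s → F c = 0
  F_neg : ∀ c, F (-c) = -(2 * Real.pi) - F c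
  F_deriv : ∀ c, -s < c → c < s → deriv F c < 0
  F_key : ∀ c, 0 ≤ c → c < s → c * (F c + 2 * Real.pi) ≤ (s ^ 2 - c ^ 2) * (-deriv F c)
  G_smooth : ContDiff ℝ ∞ G
  G_zero : ∀ x, x ≤ -b → G x = 0
  G_neg : ∀ x, G (-x) = Real.pi - G x
  G_deriv : ∀ x, -b < x → x < b → 0 < deriv G x
  G_key : ∀ x, 0 ≤ x → x < b → x * (Real.pi - G x) ≤ (b ^ 2 - x ^ 2) * deriv G x

end Pool.Agent.Lib.MP_d2b992_gt.T
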