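import Pool.Agent.Lib.MP_d2b992_gt.T.Total

/-!
# Twist functions: the functions `h`, `ψ` and the deflection integral
-/

set_option autoImplicit false

open scoped ContDiff Topology
open Set Filter MeasureTheory

namespace Pool.Agent.Lib.MP_d2b992_gt.T

/-- The total angle swept in half a turn by a geodesic with Clairaut constant `c`. -/
noncomputable def W (χ : ℝ → ℝ) (e c : ℝ) : ℝ :=
  ∫ τ in (0 : ℝ)..Real.pi, psi χ e (Real.sqrt (1 - c ^ 2) * Real.sin τ)
    * (c / (1 - (1 - c ^ 2) * Real.sin τ ^ 2))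

section

variable {R : ℝ} {χ : ℝ → ℝ}

lemma Del_zero (h : IsProfile R χ) {u : ℝ} (hu : R ≤ u) : Del χ u = 0 := by
  unfold Del
  rw [intervalIntegral.integral_congr (g := fun _ => (0 : ℝ))]
  · simp
  · intro a ha
    apply h.zero
    rcases le_total u 1 with h1 | h1
    · rw [uIcc_of_le h1, mem_Icc] at ha
      linarith [ha.1]
    · rw [uIcc_of_ge h1, mem_Icc] at ha
      linarith [ha.1, h.R1]

lemma Del_hasDerivAt (h : IsProfile R χ) (u : ℝ) : HasDerivAt (Del χ) (-χ u) u := by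
  have h1 : HasDerivAt (fun x => ∫ a in (1 : ℝ)..x, χ a) (χ u) u :=
    intervalIntegral.integral_hasDerivAt_right (h.cont.intervalIntegrable _ _)
      (h.cont.stronglyMeasurableAtFilter _ _) h.cont.continuousAt
  have h2 : Del χ = fun x => -∫ a in (1 : ℝ)..x, χ a := by
    funext x
    unfold Del
    rw [intervalIntegral.integral_symm]
  rw [h2]
  exact h1.neg

lemma Del_smooth (h : IsProfile R χ) : ContDiff ℝ ∞ (Del χ) := by
  rw [contDiff_infty_iff_deriv]
  refine ⟨fun x => (Del_hasDerivAt h x).differentiableAt, ?_⟩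
  have : deriv (Del χ) = fun x => -χ x := by
    funext x
    exact (Del_hasDerivAt h x).deriv
  rw [this]
  exact h.smooth.neg

lemma Del_nonneg (h : IsProfile R χ) (u : ℝ) : 0 ≤ Del χ u := by
  rcases le_total u 1 with h1 | h1
  · exact intervalIntegral.integral_nonneg h1 (fun _ _ => h.nonneg _)
  · rw [Del_zero h (h.R1.le.trans h1)]

lemma Del_le (h : IsProfile R χ) {u : ℝ} (hu : 0 ≤ u) : Del χ u ≤ ∫ v in (0 : ℝ)..1, χ v := by
  have h1 := intervalIntegral.integral_add_adjacent_intervals (a := 0) (b := u) (c := 1)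
      (h.cont.intervalIntegrable (μ := volume) _ _) (h.cont.intervalIntegrable (μ := volume) _ _)
  have h2 : 0 ≤ ∫ v in (0 : ℝ)..u, χ v :=
    intervalIntegral.integral_nonneg hu (fun _ _ => h.nonneg _)
  unfold Del
  linarith

lemma hp_hasDerivAt (h : IsProfile R χ) {u : ℝ} (hu : u < 1) :
    HasDerivAt (hp χ) (1 / 2 * (1 - u) ^ (-(3 / 2) : ℝ) - χ u) u := by
  have := (rt_hasDerivAt hu).add (Del_hasDerivAt h u)
  unfold hp
  exact this

lemma hq_hasDerivAt (h : IsProfile R χ) {u : ℝ} (hu : u < 1) :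
    HasDerivAt (hq χ) (1 / 2 * (1 - u) ^ (-(3 / 2) : ℝ) + χ u) u := by
  have := (rt_hasDerivAt hu).sub (Del_hasDerivAt h u)
  unfold hq
  rw [sub_neg_eq_add] at this
  exact this

lemma rt_contDiffAt {u : ℝ} (hu : u < 1) :
    ContDiffAt ℝ ∞ (fun u : ℝ => (1 - u) ^ (-(1 / 2) : ℝ)) u :=
  ContDiffAt.rpow_const_of_ne (contDiffAt_const.sub contDiffAt_id) (by
    have : 0 < 1 - u := by linarith
    exact this.ne')

lemma hp_contDiffAt (h : IsProfile R χ) {u : ℝ} (hu : u < 1) : ContDiffAt ℝ ∞ (hp χ) u :=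
  (rt_contDiffAt hu).add (Del_smooth h).contDiffAt

lemma hq_contDiffAt (h : IsProfile R χ) {u : ℝ} (hu : u < 1) : ContDiffAt ℝ ∞ (hq χ) u :=
  (rt_contDiffAt hu).sub (Del_smooth h).contDiffAt

lemma hp_eq (h : IsProfile R χ) {u : ℝ} (hu : R ≤ u) : hp χ u = (1 - u) ^ (-(1 / 2) : ℝ) := by
  unfold hp
  rw [Del_zero h hu, add_zero]

lemma hq_eq (h : IsProfile R χ) {u : ℝ} (hu : R ≤ u) : hq χ u = (1 - u) ^ (-(1 / 2) : ℝ) := by
  unfold hq
  rw [Del_zero h hu, sub_zero]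

lemma hp_pos (h : IsProfile R χ) {u : ℝ} (hu : u < 1) : 0 < hp χ u := by
  unfold hp
  have : 0 < (1 - u) ^ (-(1 / 2) : ℝ) := Real.rpow_pos_of_pos (by linarith) _
  linarith [Del_nonneg h u]

lemma rt_mul {C : ℝ} (hC : C ≠ 0) : (1 - (1 - C ^ 2)) ^ (-(1 / 2) : ℝ) * |C| = 1 := by
  have h1 : 1 - (1 - C ^ 2) = |C| ^ 2 := by rw [sq_abs]; ring
  have h2 : 0 < |C| := abs_pos.2 hC
  rw [h1, Real.rpow_neg (by positivity), ← Real.sqrt_eq_rpow, Real.sqrt_sq h2.le]
  exact inv_mul_cancel₀ h2.ne'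

lemma psi_eq_hp {C : ℝ} (hC : C ≠ 0) : psi χ 1 C = hp χ (1 - C ^ 2) * |C| := by
  unfold psi hp
  rw [add_mul, rt_mul hC, one_mul]

lemma psi_eq_hq {C : ℝ} (hC : C ≠ 0) : psi χ (-1) C = hq χ (1 - C ^ 2) * |C| := by
  unfold psi hq
  rw [sub_mul, rt_mul hC]
  ring

lemma psi_eq_one (h : IsProfile R χ) (e : ℝ) {C : ℝ} (hC : R ≤ 1 - C ^ 2) : psi χ e C = 1 := by
  unfold psi
  rw [Del_zero h hC]
  ring

lemma psi_smooth (h : IsProfile R χ) (e : ℝ) : ContDiff ℝ ∞ (psi χ e) := by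
  rw [contDiff_iff_contDiffAt]
  intro C
  by_cases hC : C = 0
  · have h1 : psi χ e =ᶠ[𝓝 C] fun _ => (1 : ℝ) := by
      have h2 : ∀ᶠ x : ℝ in 𝓝 C, R < 1 - x ^ 2 := by
        have h3 : Continuous (fun x : ℝ => 1 - x ^ 2) := by fun_prop
        apply h3.continuousAt.eventually_const_lt
        rw [hC]
        simpa using h.R1
      filter_upwards [h2] with x hx
      exact psi_eq_one h e hx.le
    exact contDiffAt_const.congr_of_eventuallyEq h1
  · unfold psi
    apply ContDiffAt.add contDiffAt_const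
    apply ContDiffAt.mul
    · apply ContDiffAt.mul contDiffAt_const
      exact ((Del_smooth h).comp (contDiff_const.sub (contDiff_id.pow 2))).contDiffAt
    · exact contDiffAt_abs hC

lemma psi_pos_p (h : IsProfile R χ) (C : ℝ) : 0 < psi χ 1 C := by
  unfold psi
  have := mul_nonneg (Del_nonneg h (1 - C ^ 2)) (abs_nonneg C)
  linarith

lemma psi_cont (h : IsProfile R χ) (e : ℝ) : Continuous (psi χ e) := (psi_smooth h e).continuous

/-! ### the facts for the profiles of a `Prof` -/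

lemma hp_zero {b s : ℝ} {χp χq : ℝ → ℝ} (h : Prof b s χp χq) : hp χp 0 = 2 := by
  unfold hp Del
  rw [h.intp, sub_zero, Real.one_rpow]
  norm_num

lemma hq_zero {b s : ℝ} {χp χq : ℝ → ℝ} (h : Prof b s χp χq) : hq χq 0 = 1 / 2 := by
  unfold hq Del
  rw [h.intq, sub_zero, Real.one_rpow]
  norm_num

lemma hp_deriv_pos {b s : ℝ} {χp χq : ℝ → ℝ} (h : Prof b s χp χq) {u : ℝ} (hu : u < 1) :
    0 < deriv (hp χp) u := by
  rw [(hp_hasDerivAt h.p hu).deriv]
  linarith [h.ltp u hu]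

lemma hq_deriv_pos {b s : ℝ} {χp χq : ℝ → ℝ} (h : Prof b s χp χq) {u : ℝ} (hu : u < 1) :
    0 < deriv (hq χq) u := by
  rw [(hq_hasDerivAt h.q hu).deriv]
  have h1 := wgt_pos hu
  unfold wgt at h1
  linarith [h.q.nonneg u]

lemma hq_pos {b s : ℝ} {χp χq : ℝ → ℝ} (h : Prof b s χp χq) {u : ℝ} (hu0 : 0 ≤ u) (hu : u < 1) :
    0 < hq χq u := by
  unfold hq
  have h1 := Del_le h.q hu0
  rw [h.intq] at h1
  have h2 : 1 ≤ (1 - u) ^ (-(1 / 2) : ℝ) :=
    Real.one_le_rpow_of_pos_of_le_one_of_nonpos (by linarith) (by linarith) (by norm_num)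
  linarith

lemma psi_pos_q {b s : ℝ} {χp χq : ℝ → ℝ} (h : Prof b s χp χq) {C : ℝ} (hC : |C| ≤ 1) :
    0 < psi χq (-1) C := by
  unfold psi
  have h0 : C ^ 2 ≤ 1 := by
    rw [← sq_abs]
    nlinarith [abs_nonneg C]
  have h1 := Del_le h.q (show (0 : ℝ) ≤ 1 - C ^ 2 by linarith)
  rw [h.intq] at h1
  have h2 := Del_nonneg h.q (1 - C ^ 2)
  nlinarith [abs_nonneg C]

/-! ### the deflection -/

/-- `K` in terms of `Del`. -/
lemma K_eq_Del (h : IsProfile R χ) {x : ℝ} (hx : 0 < x) :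
    K χ x = 1 / 2 * ∫ y in (0 : ℝ)..1, Del χ (x ^ 2 + y ^ 2) * (x / (x ^ 2 + y ^ 2)) := by
  have hx2 : x ≠ 0 := hx.ne'
  have hD : ContDiff ℝ ∞ (Del χ) := Del_smooth h
  have c1 : Continuous (fun y : ℝ => χ (x ^ 2 + y ^ 2) * (y * Real.arctan (y / x))) :=
    (h.cont2 x).mul (continuous_id.mul (Real.continuous_arctan.comp (by fun_prop)))
  have c2 : Continuous (fun y : ℝ => 1 / 2 * (Del χ (x ^ 2 + y ^ 2) * (x / (x ^ 2 + y ^ 2)))) := by
    apply continuous_const.mul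
    apply (hD.continuous.comp (by fun_prop)).mul
    apply continuous_const.div (by fun_prop)
    intro y
    positivity
  have hder : ∀ y ∈ uIcc (0 : ℝ) 1, HasDerivAt
      (fun y => -(1 / 2) * (Del χ (x ^ 2 + y ^ 2) * Real.arctan (y / x)))
      (χ (x ^ 2 + y ^ 2) * (y * Real.arctan (y / x))
        - 1 / 2 * (Del χ (x ^ 2 + y ^ 2) * (x / (x ^ 2 + y ^ 2)))) y := by
    intro y _
    have h1 : HasDerivAt (fun y : ℝ => x ^ 2 + y ^ 2) (2 * y) y := by
      have := (hasDerivAt_pow 2 y).const_add (x ^ 2)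
      simpa using this
    have h2 : HasDerivAt (fun y => Del χ (x ^ 2 + y ^ 2)) (-χ (x ^ 2 + y ^ 2) * (2 * y)) y :=
      HasDerivAt.comp (h₂ := Del χ) (h := fun y : ℝ => x ^ 2 + y ^ 2) y
        (Del_hasDerivAt h (x ^ 2 + y ^ 2)) h1
    have h3 : HasDerivAt (fun y : ℝ => y / x) (1 / x) y := (hasDerivAt_id y).div_const x
    have h4 : HasDerivAt (fun y => Real.arctan (y / x)) (1 / (1 + (y / x) ^ 2) * (1 / x)) y :=
      h3.arctan
    have h5 := (h2.mul h4).const_mul (-(1 / 2))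
    have hpos : x ^ 2 + y ^ 2 ≠ 0 := by positivity
    have e1 : 1 / (1 + (y / x) ^ 2) = x ^ 2 / (x ^ 2 + y ^ 2) := by
      field_simp
    have e2 : χ (x ^ 2 + y ^ 2) * (y * Real.arctan (y / x))
        - 1 / 2 * (Del χ (x ^ 2 + y ^ 2) * (x / (x ^ 2 + y ^ 2)))
        = -(1 / 2) * (-χ (x ^ 2 + y ^ 2) * (2 * y) * Real.arctan (y / x)
          + Del χ (x ^ 2 + y ^ 2) * (1 / (1 + (y / x) ^ 2) * (1 / x))) := by
      rw [e1]
      field_simp
      ring
    rw [e2]
    exact h5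
  have h1 := intervalIntegral.integral_eq_sub_of_hasDerivAt hder
    ((c1.sub c2).intervalIntegrable _ _)
  rw [intervalIntegral.integral_sub (c1.intervalIntegrable _ _) (c2.intervalIntegrable _ _)] at h1
  have h2 : Del χ (x ^ 2 + 1 ^ 2) = 0 := Del_zero h (by nlinarith [h.R1, sq_nonneg x])
  rw [h2] at h1
  simp only [mul_zero, zero_mul, zero_div, Real.arctan_zero, sub_zero] at h1
  rw [K_eq_AA h hx]
  unfold AA
  rw [← intervalIntegral.integral_const_mul]
  linarith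

/-- The full angle on the round sphere. -/
lemma round_int {c : ℝ} (hc : 0 < c) :
    ∫ τ in (0 : ℝ)..Real.pi, c / (1 - (1 - c ^ 2) * Real.sin τ ^ 2) = Real.pi := by
  have hden : ∀ τ : ℝ, 0 < 1 - (1 - c ^ 2) * Real.sin τ ^ 2 := by
    intro τ
    have h1 := Real.sin_sq_add_cos_sq τ
    have h2 : 1 - (1 - c ^ 2) * Real.sin τ ^ 2 = Real.cos τ ^ 2 + c ^ 2 * Real.sin τ ^ 2 := by
      linear_combination -h1
    rw [h2]
    by_cases h3 : Real.sin τ = 0
    · rw [h3] at h1 ⊢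
      nlinarith
    · have : 0 < c ^ 2 * Real.sin τ ^ 2 := by positivity
      nlinarith [sq_nonneg (Real.cos τ)]
  have hD : ∀ τ : ℝ, 0 < Real.cos τ ^ 2 + c * Real.sin τ ^ 2 := by
    intro τ
    have h1 := Real.sin_sq_add_cos_sq τ
    by_cases h3 : Real.sin τ = 0
    · rw [h3] at h1 ⊢
      nlinarith
    · have : 0 < c * Real.sin τ ^ 2 := by positivity
      nlinarith [sq_nonneg (Real.cos τ)]
  have hder : ∀ τ ∈ uIcc (0 : ℝ) Real.pi, HasDerivAt
      (fun τ => τ + Real.arctan ((c - 1) * (Real.sin τ * Real.cos τ)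
        / (Real.cos τ ^ 2 + c * Real.sin τ ^ 2)))
      (c / (1 - (1 - c ^ 2) * Real.sin τ ^ 2)) τ := by
    intro τ _
    have hs := Real.hasDerivAt_sin τ
    have hco := Real.hasDerivAt_cos τ
    have h1 : HasDerivAt (fun τ => (c - 1) * (Real.sin τ * Real.cos τ))
        ((c - 1) * (Real.cos τ * Real.cos τ + Real.sin τ * (-Real.sin τ))) τ :=
      (hs.mul hco).const_mul (c - 1)
    have h2 : HasDerivAt (fun τ => Real.cos τ ^ 2 + c * Real.sin τ ^ 2)
        (2 * (c - 1) * (Real.sin τ * Real.cos τ)) τ := by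
      have h2' := (hco.pow 2).add ((hs.pow 2).const_mul c)
      refine h2'.congr_deriv ?_
      norm_num
      ring
    have h3 : HasDerivAt (fun τ => Real.arctan ((c - 1) * (Real.sin τ * Real.cos τ)
        / (Real.cos τ ^ 2 + c * Real.sin τ ^ 2)))
        (1 / (1 + ((c - 1) * (Real.sin τ * Real.cos τ)
        / (Real.cos τ ^ 2 + c * Real.sin τ ^ 2)) ^ 2) *
        (((c - 1) * (Real.cos τ * Real.cos τ + Real.sin τ * (-Real.sin τ))
          * (Real.cos τ ^ 2 + c * Real.sin τ ^ 2)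
          - (c - 1) * (Real.sin τ * Real.cos τ) * (2 * (c - 1) * (Real.sin τ * Real.cos τ)))
        / (Real.cos τ ^ 2 + c * Real.sin τ ^ 2) ^ 2)) τ := (h1.div h2 (hD τ).ne').arctan
    have h4 := (hasDerivAt_id τ).add h3
    have hq := Real.sin_sq_add_cos_sq τ
    have hD' := (hD τ).ne'
    have hden' := (hden τ).ne'
    refine h4.congr_deriv ?_
    set S := Real.sin τ
    set C := Real.cos τ
    have e0 : 1 + ((c - 1) * (S * C) / (C ^ 2 + c * S ^ 2)) ^ 2
        = (1 - (1 - c ^ 2) * S ^ 2) / (C ^ 2 + c * S ^ 2) ^ 2 := by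
      rw [div_pow, eq_div_iff (pow_ne_zero 2 hD'), add_mul, div_mul_cancel₀ _ (pow_ne_zero 2 hD')]
      linear_combination (C ^ 2 + 1 + c ^ 2 * S ^ 2) * hq
    have e1 : (c - 1) * (C * C + S * (-S)) * (C ^ 2 + c * S ^ 2)
          - (c - 1) * (S * C) * (2 * (c - 1) * (S * C)) = c - (1 - (1 - c ^ 2) * S ^ 2) := by
      linear_combination (c - 1) * (C ^ 2 + 1 - c * S ^ 2) * hq
    rw [e0, e1]
    have h5 : (C ^ 2 + c * S ^ 2) ^ 2 ≠ 0 := pow_ne_zero 2 hD'
    rw [one_div, inv_div, div_mul_div_comm, mul_comm ((C ^ 2 + c * S ^ 2) ^ 2),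
      mul_div_mul_right _ _ h5]
    rw [sub_div, div_self hden']
    ring
  have h1 := intervalIntegral.integral_eq_sub_of_hasDerivAt hder (by
    apply Continuous.intervalIntegrable
    apply continuous_const.div (by fun_prop)
    intro τ
    exact (hden τ).ne')
  rw [h1]
  simp

/-- The deflection integral. -/
lemma defl_int (h : IsProfile R χ) {c : ℝ} (hc0 : 0 < c) (hc1 : c < 1) :
    ∫ τ in (0 : ℝ)..Real.pi, Del χ (1 - (1 - c ^ 2) * Real.sin τ ^ 2)
      * (Real.sqrt (1 - c ^ 2) * Real.sin τ) * (c / (1 - (1 - c ^ 2) * Real.sin τ ^ 2))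
      = 4 * K χ c := by
  set r := Real.sqrt (1 - c ^ 2) with hr
  have hcc : 0 < 1 - c ^ 2 := by nlinarith
  have hr0 : 0 ≤ r := Real.sqrt_nonneg _
  have hr2 : r ^ 2 = 1 - c ^ 2 := Real.sq_sqrt hcc.le
  have hr1 : r ≤ 1 := by nlinarith [pow_pos hc0 2]
  set g : ℝ → ℝ := fun y => Del χ (c ^ 2 + y ^ 2) * (c / (c ^ 2 + y ^ 2)) with hg
  have hgc : Continuous g := by
    apply ((Del_smooth h).continuous.comp (by fun_prop)).mul
    apply continuous_const.div (by fun_prop)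
    intro y
    positivity
  have h1 := intervalIntegral.integral_comp_mul_deriv (a := 0) (b := Real.pi)
    (f := fun τ : ℝ => r * Real.cos τ) (f' := fun τ => r * (-Real.sin τ)) (g := g)
    (fun x _ => (Real.hasDerivAt_cos x).const_mul r) (by fun_prop) hgc
  simp only [Function.comp_def, Real.cos_zero, Real.cos_pi, mul_one, mul_neg] at h1
  have h2 : ∀ τ : ℝ, -(g (r * Real.cos τ) * (r * Real.sin τ))
      = -(Del χ (1 - (1 - c ^ 2) * Real.sin τ ^ 2)
      * (r * Real.sin τ) * (c / (1 - (1 - c ^ 2) * Real.sin τ ^ 2))) := by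
    intro τ
    have h3 : c ^ 2 + (r * Real.cos τ) ^ 2 = 1 - (1 - c ^ 2) * Real.sin τ ^ 2 := by
      rw [mul_pow, hr2]
      linear_combination (1 - c ^ 2) * Real.sin_sq_add_cos_sq τ
    simp only [hg]
    rw [h3]
    ring
  simp only [h2] at h1
  rw [intervalIntegral.integral_neg] at h1
  have h4 : ∫ y in r..(-r), g y = -(2 * ∫ y in (0 : ℝ)..r, g y) := by
    rw [intervalIntegral.integral_symm]
    have h5 := intervalIntegral.integral_add_adjacent_intervals (a := -r) (b := 0) (c := r)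
      (hgc.intervalIntegrable (μ := volume) _ _) (hgc.intervalIntegrable (μ := volume) _ _)
    have h6 := intervalIntegral.integral_comp_neg (a := 0) (b := r) g
    rw [neg_zero] at h6
    have h7 : ∀ y, g (-y) = g y := by
      intro y
      simp only [hg]
      rw [neg_sq]
    simp only [h7] at h6
    rw [← h5, ← h6]
    ring
  have h8 : ∫ y in (0 : ℝ)..r, g y = ∫ y in (0 : ℝ)..1, g y := by
    have h5 := intervalIntegral.integral_add_adjacent_intervals (a := 0) (b := r) (c := 1)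
      (hgc.intervalIntegrable (μ := volume) _ _) (hgc.intervalIntegrable (μ := volume) _ _)
    have h9 : ∫ y in r..1, g y = ∫ y in r..1, (0 : ℝ) := by
      apply intervalIntegral.integral_congr
      intro y hy
      rw [uIcc_of_le hr1, mem_Icc] at hy
      simp only [hg]
      rw [Del_zero h (by nlinarith [h.R1, hy.1]), zero_mul]
    rw [h9] at h5
    simp only [intervalIntegral.integral_zero, add_zero] at h5
    exact h5
  rw [h4, h8] at h1
  rw [K_eq_Del h hc0]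
  linarith

theorem W_eq (h : IsProfile R χ) (e : ℝ) {c : ℝ} (hc0 : 0 < c) (hc1 : c < 1) :
    W χ e c = Real.pi + e * (4 * K χ c) := by
  have hcc : 0 < 1 - c ^ 2 := by nlinarith
  have hden : ∀ τ : ℝ, 0 < 1 - (1 - c ^ 2) * Real.sin τ ^ 2 := by
    intro τ
    nlinarith [Real.sin_sq_add_cos_sq τ, sq_nonneg (Real.cos τ), sq_nonneg (Real.sin τ),
      mul_nonneg (sq_nonneg c) (sq_nonneg (Real.sin τ)), Real.sin_sq_le_one τ, pow_pos hc0 2]
  have c0 : Continuous (fun τ : ℝ => c / (1 - (1 - c ^ 2) * Real.sin τ ^ 2)) := by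
    apply continuous_const.div (by fun_prop)
    intro τ
    exact (hden τ).ne'
  have c1 : Continuous (fun τ : ℝ => Del χ (1 - (1 - c ^ 2) * Real.sin τ ^ 2)
      * (Real.sqrt (1 - c ^ 2) * Real.sin τ) * (c / (1 - (1 - c ^ 2) * Real.sin τ ^ 2))) := by
    apply Continuous.mul _ c0
    apply ((Del_smooth h).continuous.comp (by fun_prop)).mul
    fun_prop
  have h1 : W χ e c = ∫ τ in (0 : ℝ)..Real.pi, (c / (1 - (1 - c ^ 2) * Real.sin τ ^ 2)
      + e * (Del χ (1 - (1 - c ^ 2) * Real.sin τ ^ 2)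
      * (Real.sqrt (1 - c ^ 2) * Real.sin τ) * (c / (1 - (1 - c ^ 2) * Real.sin τ ^ 2)))) := by
    unfold W
    apply intervalIntegral.integral_congr
    intro τ hτ
    rw [uIcc_of_le Real.pi_pos.le, mem_Icc] at hτ
    have h2 : 0 ≤ Real.sqrt (1 - c ^ 2) * Real.sin τ :=
      mul_nonneg (Real.sqrt_nonneg _) (Real.sin_nonneg_of_nonneg_of_le_pi hτ.1 hτ.2)
    have h3 : (Real.sqrt (1 - c ^ 2) * Real.sin τ) ^ 2 = (1 - c ^ 2) * Real.sin τ ^ 2 := by
      rw [mul_pow, Real.sq_sqrt hcc.le]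
    simp only [psi]
    rw [abs_of_nonneg h2, h3]
    ring
  have c2 : Continuous (fun τ : ℝ => e * (Del χ (1 - (1 - c ^ 2) * Real.sin τ ^ 2)
      * (Real.sqrt (1 - c ^ 2) * Real.sin τ) * (c / (1 - (1 - c ^ 2) * Real.sin τ ^ 2)))) :=
    continuous_const.mul c1
  rw [h1, intervalIntegral.integral_add (c0.intervalIntegrable _ _)
    (c2.intervalIntegrable _ _), intervalIntegral.integral_const_mul,
    round_int hc0, defl_int h hc0 hc1]

lemma W_neg (e c : ℝ) : W χ e (-c) = -W χ e c := by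
  unfold W
  rw [← intervalIntegral.integral_neg]
  congr 1
  funext τ
  rw [neg_sq, neg_div]
  ring

end

section

variable {b s : ℝ} {χp χq : ℝ → ℝ}

/-- Half a turn around the cap `p`, `c > 0`. -/
theorem Wp_pos (h : Prof b s χp χq) {c : ℝ} (hc0 : 0 < c) (hc1 : c < 1) :
    W χp 1 c = FF χp c + 3 * Real.pi := by
  rw [W_eq h.p 1 hc0 hc1]
  unfold FF
  ring

/-- Half a turn around the cap `p`, `c < 0`. -/
theorem Wp_neg (h : Prof b s χp χq) {c : ℝ} (hc0 : c < 0) (hc1 : -1 < c) :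
    W χp 1 c = FF χp c - Real.pi := by
  have h1 := Wp_pos h (c := -c) (by linarith) (by linarith)
  rw [W_neg, (tw h).F_neg] at h1
  linarith

/-- Half a turn around a cap `q`, `x > 0`. -/
theorem Wq_pos (h : Prof b s χp χq) {x : ℝ} (hx0 : 0 < x) (hx1 : x < 1) :
    W χq (-1) x = GG χq x := by
  rw [W_eq h.q (-1) hx0 hx1]
  unfold GG
  ring

/-- Half a turn around a cap `q`, `x < 0`. -/
theorem Wq_neg (h : Prof b s χp χq) {x : ℝ} (hx0 : x < 0) (hx1 : -1 < x) :
    W χq (-1) x = GG χq x - Real.pi := by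
  have h1 := Wq_pos h (x := -x) (by linarith) (by linarith)
  rw [W_neg, (tw h).G_neg] at h1
  linarith

end

end Pool.Agent.Lib.MP_d2b992_gt.T
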