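import Pool.Agent.Lib.MP_d2b992_gt.T.Defs

section
/-!
# Twist functions: existence of the profiles
-/
set_option autoImplicit false

open scoped ContDiff Topology
open Set Filter MeasureTheory

namespace Pool.Agent.Lib.MP_d2b992_gt.T

/-- The weight `1/2 (1-u)^(-3/2)`. -/
noncomputable def wgt (u : ℝ) : ℝ := 1 / 2 * (1 - u) ^ (-(3 / 2) : ℝ)

lemma wgt_pos {u : ℝ} (hu : u < 1) : 0 < wgt u := by
  unfold wgt
  have : 0 < (1 - u) ^ (-(3 / 2) : ℝ) := Real.rpow_pos_of_pos (by linarith) _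
  linarith

lemma wgt_contDiffAt {u : ℝ} (hu : u < 1) : ContDiffAt ℝ ∞ wgt u := by
  unfold wgt
  apply ContDiffAt.mul contDiffAt_const
  exact ContDiffAt.rpow_const_of_ne (contDiffAt_const.sub contDiffAt_id) (by
    have : 0 < 1 - u := by linarith
    exact this.ne')

lemma rt_hasDerivAt {u : ℝ} (hu : u < 1) :
    HasDerivAt (fun u : ℝ => (1 - u) ^ (-(1 / 2) : ℝ)) (wgt u) u := by
  have h1 : HasDerivAt (fun u : ℝ => 1 - u) (-1) u := by
    simpa using (hasDerivAt_id u).const_sub 1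
  have h2 := h1.rpow_const (p := (-(1 / 2) : ℝ)) (Or.inl (by
    have : 0 < 1 - u := by linarith
    exact this.ne'))
  have e : (-1 : ℝ) * (-(1 / 2)) * (1 - u) ^ ((-(1 / 2) : ℝ) - 1) = wgt u := by
    unfold wgt
    rw [show (-(1 / 2) : ℝ) - 1 = -(3 / 2) by norm_num]
    ring
  rw [e] at h2
  exact h2

/-- the cut-off -/
noncomputable def cut (R δ u : ℝ) : ℝ := Real.smoothTransition ((R - u) / δ)

lemma cut_smooth (R δ : ℝ) : ContDiff ℝ ∞ (cut R δ) :=
  Real.smoothTransition.contDiff.comp ((contDiff_const.sub contDiff_id).div_const δ)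

lemma cut_pos {R δ u : ℝ} (hδ : 0 < δ) (hu : u < R) : 0 < cut R δ u :=
  Real.smoothTransition.pos_of_pos (div_pos (by linarith) hδ)

lemma cut_zero {R δ u : ℝ} (hδ : 0 < δ) (hu : R ≤ u) : cut R δ u = 0 :=
  Real.smoothTransition.zero_of_nonpos (div_nonpos_of_nonpos_of_nonneg (by linarith) hδ.le)

lemma cut_one {R δ u : ℝ} (hδ : 0 < δ) (hu : u ≤ R - δ) : cut R δ u = 1 :=
  Real.smoothTransition.one_of_one_le (by
    rw [le_div_iff₀ hδ]
    linarith)

lemma cut_le_one (R δ u : ℝ) : cut R δ u ≤ 1 := Real.smoothTransition.le_one _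

/-- the unnormalised profile of the cap `p` -/
lemma prod_smooth {R δ : ℝ} (hR : R < 1) (hδ : 0 < δ) :
    ContDiff ℝ ∞ (fun u => wgt u * cut R δ u) := by
  rw [contDiff_iff_contDiffAt]
  intro u
  rcases lt_or_ge u 1 with h1 | h1
  · exact (wgt_contDiffAt h1).mul (cut_smooth R δ).contDiffAt
  · have h2 : (fun u => wgt u * cut R δ u) =ᶠ[𝓝 u] fun _ => (0 : ℝ) := by
      filter_upwards [Ioi_mem_nhds (lt_of_lt_of_le hR h1)] with v hv
      rw [cut_zero hδ (le_of_lt hv), mul_zero]
    exact contDiffAt_const.congr_of_eventuallyEq h2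

theorem exists_prof {b s : ℝ} (hb0 : 0 < b) (hb1 : b < 1 / 2) (hs0 : 0 < s)
    (hsb : s ^ 2 + b ^ 2 = 1) : ∃ χp χq : ℝ → ℝ, Prof b s χp χq := by
  have hb2 : b ^ 2 < 1 / 4 := by nlinarith
  have hs1 : s ^ 2 < 1 := by nlinarith [pow_pos hb0 2]
  set δ : ℝ := (1 / 4 - b ^ 2) / 2 with hδ
  have hδ0 : 0 < δ := by
    rw [hδ]
    linarith
  have hsδ : 0 < s ^ 2 - δ := by
    rw [hδ]
    nlinarith [pow_pos hb0 2]
  -- cap p
  set f : ℝ → ℝ := fun u => wgt u * cut (s ^ 2) δ u with hf
  have hfs : ContDiff ℝ ∞ f := prod_smooth hs1 hδ0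
  have hf0 : ∀ u, 0 ≤ f u := by
    intro u
    rcases lt_or_ge u (s ^ 2) with h1 | h1
    · exact (mul_pos (wgt_pos (h1.trans hs1)) (cut_pos hδ0 h1)).le
    · rw [hf]
      simp only
      rw [cut_zero hδ0 h1, mul_zero]
  have hI : 1 < ∫ v in (0 : ℝ)..1, f v := by
    have h1 : ∫ v in (0 : ℝ)..(s ^ 2 - δ), f v = ∫ v in (0 : ℝ)..(s ^ 2 - δ), wgt v := by
      apply intervalIntegral.integral_congr
      intro v hv
      rw [uIcc_of_le hsδ.le, mem_Icc] at hv
      simp only [hf]
      rw [cut_one hδ0 hv.2, mul_one]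
    have h2 : ∫ v in (0 : ℝ)..(s ^ 2 - δ), wgt v
        = (1 - (s ^ 2 - δ)) ^ (-(1 / 2) : ℝ) - (1 - 0) ^ (-(1 / 2) : ℝ) := by
      apply intervalIntegral.integral_eq_sub_of_hasDerivAt
        (f := fun u : ℝ => (1 - u) ^ (-(1 / 2) : ℝ))
      · intro v hv
        rw [uIcc_of_le hsδ.le, mem_Icc] at hv
        exact rt_hasDerivAt (by linarith [hv.2])
      · apply ContinuousOn.intervalIntegrable
        intro v hv
        rw [uIcc_of_le hsδ.le, mem_Icc] at hv
        exact (wgt_contDiffAt (by linarith [hv.2])).continuousAt.continuousWithinAt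
    have h3 : 0 ≤ ∫ v in (s ^ 2 - δ)..1, f v :=
      intervalIntegral.integral_nonneg (by linarith) (fun _ _ => hf0 _)
    have h4 := intervalIntegral.integral_add_adjacent_intervals (a := 0) (b := s ^ 2 - δ) (c := 1)
      (hfs.continuous.intervalIntegrable (μ := volume) _ _)
      (hfs.continuous.intervalIntegrable (μ := volume) _ _)
    have h5 : 2 < (1 - (s ^ 2 - δ)) ^ (-(1 / 2) : ℝ) := by
      have h6 : 1 - (s ^ 2 - δ) = b ^ 2 + δ := by linarith
      rw [h6, Real.rpow_neg (by positivity), ← Real.sqrt_eq_rpow]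
      have h7 : Real.sqrt (b ^ 2 + δ) < 1 / 2 := by
        rw [Real.sqrt_lt' (by norm_num)]
        rw [hδ]
        linarith
      have h8 : 0 < Real.sqrt (b ^ 2 + δ) := Real.sqrt_pos.2 (by positivity)
      rw [lt_inv_comm₀ (by norm_num) h8]
      linarith
    have h9 : (1 - 0 : ℝ) ^ (-(1 / 2) : ℝ) = 1 := by
      rw [sub_zero, Real.one_rpow]
    rw [← h4, h1, h2, h9]
    linarith
  set κ : ℝ := (∫ v in (0 : ℝ)..1, f v)⁻¹ with hκ
  have hκ0 : 0 < κ := inv_pos.2 (by linarith)
  have hκ1 : κ < 1 := inv_lt_one_of_one_lt₀ hI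
  -- caps q
  set g : ℝ → ℝ := cut (b ^ 2) 1 with hg
  have hgs : ContDiff ℝ ∞ g := cut_smooth _ _
  have hg0 : ∀ u, 0 ≤ g u := fun u => Real.smoothTransition.nonneg _
  have hJ : 0 < ∫ v in (0 : ℝ)..1, g v := by
    apply intervalIntegral.integral_pos (by norm_num) hgs.continuous.continuousOn
      (fun _ _ => hg0 _)
    exact ⟨0, by norm_num, cut_pos one_pos (by positivity)⟩
  refine ⟨fun u => κ * f u, fun u => (2 * ∫ v in (0 : ℝ)..1, g v)⁻¹ * g u, ?_⟩
  refine ⟨hb0, hb1, hs0, hsb, ⟨by positivity, hs1, contDiff_const.mul hfs, ?_, ?_⟩,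
    ⟨by positivity, by linarith, contDiff_const.mul hgs, ?_, ?_⟩, ?_, ?_, ?_⟩
  · intro u hu
    exact mul_pos hκ0 (mul_pos (wgt_pos (hu.trans hs1)) (cut_pos hδ0 hu))
  · intro u hu
    simp only [hf]
    rw [cut_zero hδ0 hu, mul_zero, mul_zero]
  · intro u hu
    exact mul_pos (inv_pos.2 (by linarith)) (cut_pos one_pos hu)
  · intro u hu
    simp only [hg]
    rw [cut_zero one_pos hu, mul_zero]
  · intro u hu
    change κ * f u < wgt u
    have h1 : f u ≤ wgt u := by
      have := mul_le_mul_of_nonneg_left (cut_le_one (s ^ 2) δ u) (wgt_pos hu).le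
      simpa [hf] using this
    have h2 : κ * f u ≤ κ * wgt u := mul_le_mul_of_nonneg_left h1 hκ0.le
    have h3 : κ * wgt u < 1 * wgt u := mul_lt_mul_of_pos_right hκ1 (wgt_pos hu)
    linarith
  · rw [intervalIntegral.integral_const_mul, hκ]
    exact inv_mul_cancel₀ (by linarith)
  · rw [intervalIntegral.integral_const_mul, mul_inv]
    have := hJ.ne'
    field_simp

end Pool.Agent.Lib.MP_d2b992_gt.T
end

section
/-!
# Twist functions: smoothness, total mass, the key inequality
-/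
set_option autoImplicit false

open scoped ContDiff Topology Convolution
open Set Filter MeasureTheory

namespace Pool.Agent.Lib.MP_d2b992_gt.T

section

variable {R : ℝ} {χ : ℝ → ℝ}

lemma IsProfile.cont (h : IsProfile R χ) : Continuous χ := h.smooth.continuous

lemma IsProfile.nonneg (h : IsProfile R χ) (u : ℝ) : 0 ≤ χ u := by
  rcases lt_or_ge u R with h1 | h1
  · exact (h.pos u h1).le
  · exact (h.zero u h1).ge

lemma IsProfile.cont2 (h : IsProfile R χ) (a : ℝ) : Continuous (fun y : ℝ => χ (a ^ 2 + y ^ 2)) :=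
  h.cont.comp (by fun_prop)

/-- `J` as an integral over the whole line. -/
lemma J_eq (h : IsProfile R χ) (a : ℝ) : J χ a = (1 / 2) * ∫ y : ℝ, χ (a ^ 2 + y ^ 2) := by
  have hsupp : ∀ y : ℝ, y ∉ Ioc (-1 : ℝ) 1 → χ (a ^ 2 + y ^ 2) = 0 := by
    intro y hy
    apply h.zero
    have h1 : 1 ≤ y ^ 2 := by
      rw [mem_Ioc, not_and_or, not_lt, not_le] at hy
      rcases hy with hy | hy
      · nlinarith
      · nlinarith
    nlinarith [sq_nonneg a, h.R1]
  have h1 : ∫ y : ℝ, χ (a ^ 2 + y ^ 2) = ∫ y in (-1 : ℝ)..1, χ (a ^ 2 + y ^ 2) := by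
    rw [intervalIntegral.integral_of_le (by norm_num)]
    exact (setIntegral_eq_integral_of_forall_compl_eq_zero hsupp).symm
  have h2 : ∫ y in (-1 : ℝ)..1, χ (a ^ 2 + y ^ 2) = J χ a + J χ a := by
    rw [← intervalIntegral.integral_add_adjacent_intervals (b := 0)
      ((h.cont2 a).intervalIntegrable _ _) ((h.cont2 a).intervalIntegrable _ _)]
    congr 1
    have := intervalIntegral.integral_comp_neg (a := 0) (b := 1) (fun y => χ (a ^ 2 + y ^ 2))
    simp only [even_two, Even.neg_pow, neg_zero] at this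
    rw [← this]
    rfl
  rw [h1, h2]
  ring

lemma J_smooth (h : IsProfile R χ) : ContDiff ℝ ∞ (J χ) := by
  have h1 : ContDiffOn ℝ ((⊤ : ℕ∞) : WithTop ℕ∞)
      (fun a : ℝ => ((fun _ : ℝ => (1 : ℝ)) ⋆[ContinuousLinearMap.mul ℝ ℝ, volume]
        (fun t : ℝ => χ (a ^ 2 + t ^ 2))) (0 : ℝ)) univ := by
    apply contDiffOn_convolution_right_with_param_comp (ContinuousLinearMap.mul ℝ ℝ)
      (v := fun _ : ℝ => (0 : ℝ)) contDiffOn_const (g := fun a t => χ (a ^ 2 + t ^ 2))
      (k := Icc (-1 : ℝ) 1) isOpen_univ isCompact_Icc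
    · intro a y _ hy
      apply h.zero
      have h1 : 1 ≤ y ^ 2 := by
        rw [mem_Icc, not_and_or, not_le, not_le] at hy
        rcases hy with hy | hy
        · nlinarith
        · nlinarith
      nlinarith [sq_nonneg a, h.R1]
    · exact locallyIntegrable_const 1
    · apply ContDiff.contDiffOn
      have : ContDiff ℝ ∞ (fun p : ℝ × ℝ => χ (p.1 ^ 2 + p.2 ^ 2)) :=
        h.smooth.comp ((contDiff_fst.pow 2).add (contDiff_snd.pow 2))
      exact this
  rw [contDiffOn_univ] at h1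
  have h2 : J χ = fun a => (1 / 2) *
      ((fun _ : ℝ => (1 : ℝ)) ⋆[ContinuousLinearMap.mul ℝ ℝ, volume]
        (fun t : ℝ => χ (a ^ 2 + t ^ 2))) (0 : ℝ) := by
    funext a
    rw [J_eq h, MeasureTheory.convolution]
    simp
  rw [h2]
  exact contDiff_const.mul h1

lemma J_cont (h : IsProfile R χ) : Continuous (J χ) := (J_smooth h).continuous

lemma J_even (a : ℝ) : J χ (-a) = J χ a := by
  unfold J
  simp

lemma J_zero (h : IsProfile R χ) {a : ℝ} (ha : R ≤ a ^ 2) : J χ a = 0 := by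
  unfold J
  have : ∀ y : ℝ, χ (a ^ 2 + y ^ 2) = 0 := fun y => h.zero _ (by nlinarith [sq_nonneg y])
  simp [this]

lemma J_nonneg (h : IsProfile R χ) (a : ℝ) : 0 ≤ J χ a := by
  unfold J
  exact intervalIntegral.integral_nonneg (by norm_num) (fun _ _ => h.nonneg _)

lemma J_pos (h : IsProfile R χ) {a : ℝ} (ha : a ^ 2 < R) : 0 < J χ a := by
  unfold J
  apply intervalIntegral.integral_pos (by norm_num) (h.cont2 a).continuousOn
    (fun _ _ => h.nonneg _)
  exact ⟨0, by norm_num, by simpa using h.pos _ ha⟩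

lemma K_hasDerivAt (h : IsProfile R χ) (x : ℝ) : HasDerivAt (K χ) (-J χ x) x := by
  have h1 : HasDerivAt (fun x => ∫ a in (1 : ℝ)..x, J χ a) (J χ x) x :=
    intervalIntegral.integral_hasDerivAt_right ((J_cont h).intervalIntegrable _ _)
      ((J_cont h).stronglyMeasurableAtFilter _ _) (J_cont h).continuousAt
  have h2 : K χ = fun x => -∫ a in (1 : ℝ)..x, J χ a := by
    funext x
    unfold K
    rw [intervalIntegral.integral_symm]
  rw [h2]
  exact h1.neg

lemma K_smooth (h : IsProfile R χ) : ContDiff ℝ ∞ (K χ) := by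
  rw [contDiff_infty_iff_deriv]
  refine ⟨fun x => (K_hasDerivAt h x).differentiableAt, ?_⟩
  have : deriv (K χ) = fun x => -J χ x := by
    funext x
    exact (K_hasDerivAt h x).deriv
  rw [this]
  exact (J_smooth h).neg

lemma K_zero (h : IsProfile R χ) {x : ℝ} (hx0 : 0 ≤ x) (hx : R ≤ x ^ 2) : K χ x = 0 := by
  unfold K
  rw [intervalIntegral.integral_congr (g := fun _ => (0 : ℝ))]
  · simp
  · intro a ha
    apply J_zero h
    rcases le_total x 1 with h1 | h1
    · rw [uIcc_of_le h1, mem_Icc] at ha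
      nlinarith [ha.1]
    · rw [uIcc_of_ge h1, mem_Icc] at ha
      nlinarith [ha.1, h.R1]

/-! ### the formula with the arc tangent -/

lemma chi_deriv (h : IsProfile R χ) (u : ℝ) : HasDerivAt χ (deriv χ u) u :=
  (h.smooth.differentiable (by simp)).differentiableAt.hasDerivAt

lemma dchi_cont (h : IsProfile R χ) : Continuous (deriv χ) :=
  h.smooth.continuous_deriv (by simp)

/-- the auxiliary function `A` -/
noncomputable def AA (χ : ℝ → ℝ) (x : ℝ) : ℝ :=
  ∫ y in (0 : ℝ)..1, χ (x ^ 2 + y ^ 2) * (y * Real.arctan (y / x))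

/-- the `x`-derivative of the integrand of `A` -/
noncomputable def dA (χ : ℝ → ℝ) (x y : ℝ) : ℝ :=
  (deriv χ (x ^ 2 + y ^ 2) * (2 * x)) * (y * Real.arctan (y / x))
    + χ (x ^ 2 + y ^ 2) * (y * (1 / (1 + (y / x) ^ 2) * (-(y / x ^ 2))))

lemma dA_deriv (h : IsProfile R χ) {x : ℝ} (hx : 0 < x) (y : ℝ) :
    HasDerivAt (fun x => χ (x ^ 2 + y ^ 2) * (y * Real.arctan (y / x))) (dA χ x y) x := by
  have h1 : HasDerivAt (fun x : ℝ => x ^ 2 + y ^ 2) (2 * x) x := by
    have := (hasDerivAt_pow 2 x).add_const (y ^ 2)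
    simpa using this
  have h2 : HasDerivAt (fun x => χ (x ^ 2 + y ^ 2)) (deriv χ (x ^ 2 + y ^ 2) * (2 * x)) x :=
    (chi_deriv h (x ^ 2 + y ^ 2)).comp x h1
  have h3 : HasDerivAt (fun x : ℝ => y / x) (-(y / x ^ 2)) x := by
    have := (hasDerivAt_inv hx.ne').const_mul y
    simpa [div_eq_mul_inv] using this
  have h4 : HasDerivAt (fun x => Real.arctan (y / x)) (1 / (1 + (y / x) ^ 2) * (-(y / x ^ 2))) x :=
    h3.arctan
  exact h2.mul (h4.const_mul y)

lemma dA_cont (h : IsProfile R χ) (x : ℝ) : Continuous (dA χ x) := by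
  unfold dA
  have c1 : Continuous (fun y : ℝ => deriv χ (x ^ 2 + y ^ 2)) :=
    (dchi_cont h).comp (by fun_prop)
  have c2 := h.cont2 x
  have c3 : Continuous (fun y : ℝ => Real.arctan (y / x)) := by fun_prop
  have c4 : Continuous (fun y : ℝ => 1 / (1 + (y / x) ^ 2)) := by
    apply Continuous.div continuous_const (by fun_prop)
    intro y
    positivity
  exact (((c1.mul continuous_const).mul (continuous_id.mul c3))).add
    (c2.mul (continuous_id.mul (c4.mul (by fun_prop))))

lemma AA_hasDerivAt (h : IsProfile R χ) {x : ℝ} (hx : 0 < x) :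
    HasDerivAt (AA χ) (∫ y in (0 : ℝ)..1, dA χ x y) x := by
  -- a bound for the derivative near `x`
  have hK : IsCompact (Icc (x / 2) (2 * x) ×ˢ Icc (0 : ℝ) 1) := isCompact_Icc.prod isCompact_Icc
  have hcont : ContinuousOn (fun p : ℝ × ℝ => dA χ p.1 p.2) (Icc (x / 2) (2 * x) ×ˢ Icc (0 : ℝ) 1) := by
    have hne : ∀ p ∈ Icc (x / 2) (2 * x) ×ˢ Icc (0 : ℝ) 1, (p : ℝ × ℝ).1 ≠ 0 := by
      rintro ⟨p, q⟩ ⟨hp, _⟩
      have := hp.1
      have h2 : 0 < x / 2 := by positivity
      exact (lt_of_lt_of_le h2 this).ne'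
    unfold dA
    have c1 : Continuous (fun p : ℝ × ℝ => deriv χ (p.1 ^ 2 + p.2 ^ 2)) :=
      (dchi_cont h).comp (by fun_prop)
    have c2 : Continuous (fun p : ℝ × ℝ => χ (p.1 ^ 2 + p.2 ^ 2)) := h.cont.comp (by fun_prop)
    have c3 : ContinuousOn (fun p : ℝ × ℝ => p.2 / p.1) (Icc (x / 2) (2 * x) ×ˢ Icc (0 : ℝ) 1) :=
      continuous_snd.continuousOn.div continuous_fst.continuousOn hne
    have c4 : ContinuousOn (fun p : ℝ × ℝ => Real.arctan (p.2 / p.1))
        (Icc (x / 2) (2 * x) ×ˢ Icc (0 : ℝ) 1) := Real.continuous_arctan.comp_continuousOn c3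
    have c5 : ContinuousOn (fun p : ℝ × ℝ => 1 / (1 + (p.2 / p.1) ^ 2))
        (Icc (x / 2) (2 * x) ×ˢ Icc (0 : ℝ) 1) := by
      apply ContinuousOn.div continuousOn_const (continuousOn_const.add (c3.pow 2))
      intro p _
      have := sq_nonneg (p.2 / p.1)
      change 1 + (p.2 / p.1) ^ 2 ≠ 0
      linarith
    have c6 : ContinuousOn (fun p : ℝ × ℝ => -(p.2 / p.1 ^ 2))
        (Icc (x / 2) (2 * x) ×ˢ Icc (0 : ℝ) 1) := by
      apply ContinuousOn.neg
      apply ContinuousOn.div continuous_snd.continuousOn (continuous_fst.pow 2).continuousOn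
      intro p hp
      exact pow_ne_zero 2 (hne p hp)
    exact ((c1.continuousOn.mul (by fun_prop)).mul (continuous_snd.continuousOn.mul c4)).add
      (c2.continuousOn.mul (continuous_snd.continuousOn.mul (c5.mul c6)))
  obtain ⟨C, hC⟩ := hK.exists_bound_of_continuousOn hcont
  have key := intervalIntegral.hasDerivAt_integral_of_dominated_loc_of_deriv_le
    (μ := volume) (a := 0) (b := 1) (x₀ := x) (s := Ioo (x / 2) (2 * x))
    (F := fun x y => χ (x ^ 2 + y ^ 2) * (y * Real.arctan (y / x))) (F' := dA χ)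
    (bound := fun _ => C) (Ioo_mem_nhds (by linarith) (by linarith)) ?_ ?_ ?_ ?_ ?_ ?_
  · exact key.2
  · refine Eventually.of_forall (fun z => ?_)
    apply Continuous.aestronglyMeasurable
    exact (h.cont2 z).mul (continuous_id.mul (Real.continuous_arctan.comp (by fun_prop)))
  · apply Continuous.intervalIntegrable
    exact (h.cont2 x).mul (continuous_id.mul (Real.continuous_arctan.comp (by fun_prop)))
  · exact (dA_cont h x).aestronglyMeasurable
  · refine Eventually.of_forall (fun y hy z hz => ?_)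
    rw [uIoc_of_le (by norm_num), mem_Ioc] at hy
    exact hC (z, y) ⟨⟨hz.1.le, hz.2.le⟩, ⟨hy.1.le, hy.2⟩⟩
  · exact intervalIntegrable_const
  · refine Eventually.of_forall (fun y hy z hz => ?_)
    exact dA_deriv h (by
      have : 0 < x / 2 := by positivity
      linarith [hz.1]) y

/-- the derivative of `A` is `- J` -/
lemma dA_int (h : IsProfile R χ) {x : ℝ} (hx : 0 < x) :
    ∫ y in (0 : ℝ)..1, dA χ x y = -J χ x := by
  have hder : ∀ y ∈ uIcc (0 : ℝ) 1, HasDerivAt
      (fun y => x * χ (x ^ 2 + y ^ 2) * Real.arctan (y / x)) (dA χ x y + χ (x ^ 2 + y ^ 2)) y := by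
    intro y _
    have h1 : HasDerivAt (fun y : ℝ => x ^ 2 + y ^ 2) (2 * y) y := by
      have := (hasDerivAt_pow 2 y).const_add (x ^ 2)
      simpa using this
    have h2 : HasDerivAt (fun y => χ (x ^ 2 + y ^ 2)) (deriv χ (x ^ 2 + y ^ 2) * (2 * y)) y :=
      (chi_deriv h (x ^ 2 + y ^ 2)).comp y h1
    have h3 : HasDerivAt (fun y : ℝ => y / x) (1 / x) y := (hasDerivAt_id y).div_const x
    have h4 : HasDerivAt (fun y => Real.arctan (y / x)) (1 / (1 + (y / x) ^ 2) * (1 / x)) y :=
      h3.arctan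
    have h5 := (h2.const_mul x).mul h4
    have hx2 : x ≠ 0 := hx.ne'
    have hpos : x ^ 2 + y ^ 2 ≠ 0 := by positivity
    have e1 : 1 / (1 + (y / x) ^ 2) = x ^ 2 / (x ^ 2 + y ^ 2) := by
      field_simp
    have e2 : dA χ x y + χ (x ^ 2 + y ^ 2) = x * (deriv χ (x ^ 2 + y ^ 2) * (2 * y))
        * Real.arctan (y / x) + x * χ (x ^ 2 + y ^ 2) * (1 / (1 + (y / x) ^ 2) * (1 / x)) := by
      unfold dA
      rw [e1]
      field_simp
      ring
    rw [e2]
    exact h5
  have hint : IntervalIntegrable (fun y => dA χ x y + χ (x ^ 2 + y ^ 2)) volume 0 1 :=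
    ((dA_cont h x).add (h.cont2 x)).intervalIntegrable _ _
  have h1 := intervalIntegral.integral_eq_sub_of_hasDerivAt hder hint
  rw [intervalIntegral.integral_add ((dA_cont h x).intervalIntegrable _ _)
    ((h.cont2 x).intervalIntegrable _ _)] at h1
  have h2 : χ (x ^ 2 + 1 ^ 2) = 0 := h.zero _ (by nlinarith [h.R1, sq_nonneg x])
  rw [h2] at h1
  simp only [mul_zero, zero_mul, zero_div, Real.arctan_zero, sub_zero] at h1
  unfold J
  linarith

lemma K_eq_AA (h : IsProfile R χ) {x : ℝ} (hx : 0 < x) : K χ x = AA χ x := by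
  have hd : ∀ z ∈ uIcc x 1, HasDerivAt (fun z => K χ z - AA χ z) 0 z := by
    intro z hz
    have hz0 : 0 < z := by
      have : min x 1 ≤ z := (mem_uIcc.1 hz).elim (fun h => (min_le_left _ _).trans h.1)
        (fun h => (min_le_right _ _).trans h.1)
      exact lt_of_lt_of_le (lt_min hx one_pos) this
    have h1 := (K_hasDerivAt h z).sub (AA_hasDerivAt h hz0)
    rw [dA_int h hz0, sub_self] at h1
    exact h1
  have h2 := intervalIntegral.integral_eq_sub_of_hasDerivAt hd
    (continuous_const.intervalIntegrable _ _)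
  rw [intervalIntegral.integral_zero] at h2
  have h3 : K χ 1 = 0 := by
    unfold K
    simp
  have h4 : AA χ 1 = 0 := by
    unfold AA
    have : ∀ y : ℝ, χ (1 ^ 2 + y ^ 2) = 0 := fun y => h.zero _ (by nlinarith [h.R1, sq_nonneg y])
    simp only [this]
    simp
  rw [h3, h4] at h2
  linarith

/-- T3: the key inequality. -/
lemma key (h : IsProfile R χ) {x : ℝ} (hx0 : 0 ≤ x) : x * K χ x ≤ (R - x ^ 2) * J χ x := by
  rcases hx0.eq_or_lt with hx | hx
  · rw [← hx]
    have := mul_nonneg h.R0.le (J_nonneg h 0)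
    simpa using this
  rw [K_eq_AA h hx]
  unfold AA J
  rw [← intervalIntegral.integral_const_mul, ← intervalIntegral.integral_const_mul]
  apply intervalIntegral.integral_mono_on (by norm_num)
  · apply Continuous.intervalIntegrable
    exact continuous_const.mul
      ((h.cont2 x).mul (continuous_id.mul (Real.continuous_arctan.comp (by fun_prop))))
  · exact (continuous_const.mul (h.cont2 x)).intervalIntegrable _ _
  · intro y hy
    rcases lt_or_ge (x ^ 2 + y ^ 2) R with h1 | h1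
    · have h2 : Real.arctan (y / x) ≤ y / x := by
        have h3 : 0 ≤ y / x := div_nonneg hy.1 hx.le
        have h4 := Real.le_tan (Real.arctan_nonneg.2 h3) (Real.arctan_lt_pi_div_two _)
        rwa [Real.tan_arctan] at h4
      have h5 : x * (y * Real.arctan (y / x)) ≤ y ^ 2 := by
        have h6 : x * (y * Real.arctan (y / x)) ≤ x * (y * (y / x)) :=
          mul_le_mul_of_nonneg_left (mul_le_mul_of_nonneg_left h2 hy.1) hx.le
        have h7 : x * (y * (y / x)) = y ^ 2 := by
          field_simp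
        linarith
      have h8 := h.nonneg (x ^ 2 + y ^ 2)
      calc x * (χ (x ^ 2 + y ^ 2) * (y * Real.arctan (y / x)))
          = χ (x ^ 2 + y ^ 2) * (x * (y * Real.arctan (y / x))) := by ring
        _ ≤ χ (x ^ 2 + y ^ 2) * (R - x ^ 2) := mul_le_mul_of_nonneg_left (by linarith) h8
        _ = (R - x ^ 2) * χ (x ^ 2 + y ^ 2) := by ring
    · rw [h.zero _ h1]
      simp

end

end Pool.Agent.Lib.MP_d2b992_gt.T
end

section
/-!
# Twist functions: total mass, the interface `Tw`
-/
set_option autoImplicit false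

open scoped ContDiff Topology
open Set Filter MeasureTheory

namespace Pool.Agent.Lib.MP_d2b992_gt.T

section

variable {R : ℝ} {χ : ℝ → ℝ}

lemma AA_tendsto (h : IsProfile R χ) :
    Tendsto (AA χ) (𝓝[>] (0 : ℝ))
      (𝓝 (∫ y in (0 : ℝ)..1, χ (0 ^ 2 + y ^ 2) * (y * (Real.pi / 2)))) := by
  obtain ⟨C, hC⟩ := isCompact_Icc.exists_bound_of_continuousOn
    (h.cont.continuousOn (s := Icc (0 : ℝ) 2))
  unfold AA
  apply intervalIntegral.tendsto_integral_filter_of_dominated_convergence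
    (fun _ => C * (Real.pi / 2))
  · refine Eventually.of_forall (fun z => ?_)
    apply Continuous.aestronglyMeasurable
    exact (h.cont2 z).mul (continuous_id.mul (Real.continuous_arctan.comp (by fun_prop)))
  · have : Ioo (0 : ℝ) 1 ∈ 𝓝[>] (0 : ℝ) := Ioo_mem_nhdsGT one_pos
    filter_upwards [this] with x hx
    refine Eventually.of_forall (fun y hy => ?_)
    rw [uIoc_of_le (by norm_num), mem_Ioc] at hy
    have h1 : ‖χ (x ^ 2 + y ^ 2)‖ ≤ C := by
      apply hC
      constructor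
      · positivity
      · nlinarith [hx.1, hx.2, hy.1, hy.2]
    have h2 : ‖y * Real.arctan (y / x)‖ ≤ Real.pi / 2 := by
      rw [norm_mul]
      have h3 : ‖y‖ ≤ 1 := by
        rw [Real.norm_eq_abs, abs_of_pos hy.1]
        exact hy.2
      have h4 : ‖Real.arctan (y / x)‖ ≤ Real.pi / 2 := by
        rw [Real.norm_eq_abs, abs_le]
        exact ⟨(Real.neg_pi_div_two_lt_arctan _).le, (Real.arctan_lt_pi_div_two _).le⟩
      calc ‖y‖ * ‖Real.arctan (y / x)‖ ≤ 1 * (Real.pi / 2) :=
            mul_le_mul h3 h4 (norm_nonneg _) (by norm_num)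
        _ = Real.pi / 2 := one_mul _
    rw [norm_mul]
    exact mul_le_mul h1 h2 (norm_nonneg _) ((norm_nonneg _).trans h1)
  · exact intervalIntegrable_const
  · refine Eventually.of_forall (fun y hy => ?_)
    rw [uIoc_of_le (by norm_num), mem_Ioc] at hy
    apply Tendsto.mul
    · have h1 : Continuous (fun x : ℝ => χ (x ^ 2 + y ^ 2)) := h.cont.comp (by fun_prop)
      exact (h1.tendsto 0).mono_left nhdsWithin_le_nhds
    · apply Tendsto.const_mul
      have h1 : Tendsto (fun x : ℝ => y / x) (𝓝[>] (0 : ℝ)) atTop := by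
        simp only [div_eq_mul_inv]
        exact Tendsto.const_mul_atTop hy.1 tendsto_inv_nhdsGT_zero
      exact (Real.tendsto_arctan_atTop.mono_right nhdsWithin_le_nhds).comp h1

lemma K_at_zero (h : IsProfile R χ) : K χ 0 = Real.pi / 4 * ∫ v in (0 : ℝ)..1, χ v := by
  have h1 : Tendsto (K χ) (𝓝[>] (0 : ℝ)) (𝓝 (K χ 0)) :=
    ((K_smooth h).continuous.tendsto 0).mono_left nhdsWithin_le_nhds
  have h2 : Tendsto (K χ) (𝓝[>] (0 : ℝ))
      (𝓝 (∫ y in (0 : ℝ)..1, χ (0 ^ 2 + y ^ 2) * (y * (Real.pi / 2)))) := by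
    refine (AA_tendsto h).congr' ?_
    filter_upwards [self_mem_nhdsWithin] with x hx
    exact (K_eq_AA h hx).symm
  rw [tendsto_nhds_unique h1 h2]
  have h3 := intervalIntegral.integral_comp_mul_deriv (a := 0) (b := 1) (f := fun y : ℝ => y ^ 2)
    (f' := fun y => 2 * y) (g := χ) (fun x _ => by simpa using hasDerivAt_pow 2 x)
    (by fun_prop) h.cont
  simp only [Function.comp_def] at h3
  have h4 : ∀ y : ℝ, χ (0 ^ 2 + y ^ 2) * (y * (Real.pi / 2))
      = Real.pi / 4 * (χ (y ^ 2) * (2 * y)) := by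
    intro y
    rw [show (0 : ℝ) ^ 2 + y ^ 2 = y ^ 2 by ring]
    ring
  simp only [h4]
  rw [intervalIntegral.integral_const_mul, h3]
  norm_num

lemma K_neg (h : IsProfile R χ) (x : ℝ) : K χ (-x) = 2 * K χ 0 - K χ x := by
  have hd : ∀ z ∈ uIcc 0 x, HasDerivAt (fun z => K χ (-z) + K χ z) 0 z := by
    intro z _
    have h1 : HasDerivAt (fun z => K χ (-z)) (-J χ (-z) * (-1)) z :=
      (K_hasDerivAt h (-z)).comp z (hasDerivAt_neg z)
    have h2 := h1.add (K_hasDerivAt h z)
    rw [J_even] at h2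
    have e : -J χ z * -1 + -J χ z = 0 := by ring
    rw [e] at h2
    exact h2
  have h2 := intervalIntegral.integral_eq_sub_of_hasDerivAt hd
    (continuous_const.intervalIntegrable _ _)
  rw [intervalIntegral.integral_zero] at h2
  simp only [neg_zero] at h2
  linarith

/-- The interface with the dynamics. -/
theorem tw {b s : ℝ} {χp χq : ℝ → ℝ} (h : Prof b s χp χq) : Tw b s (FF χp) (GG χq) := by
  have hF0 : K χp 0 = Real.pi / 4 := by
    rw [K_at_zero h.p, h.intp, mul_one]
  have hG0 : K χq 0 = Real.pi / 8 := by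
    rw [K_at_zero h.q, h.intq]
    ring
  have hdF : ∀ c, HasDerivAt (FF χp) (4 * (-J χp c)) c := fun c =>
    ((K_hasDerivAt h.p c).const_mul 4).sub_const _
  have hdG : ∀ c, HasDerivAt (GG χq) (4 * J χq c) c := by
    intro c
    have h1 := ((K_hasDerivAt h.q c).const_mul 4).const_sub Real.pi
    have e : -(4 * -J χq c) = 4 * J χq c := by ring
    rw [e] at h1
    exact h1
  have hFneg : ∀ c, FF χp (-c) = -(2 * Real.pi) - FF χp c := by
    intro c
    unfold FF
    rw [K_neg h.p, hF0]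
    ring
  have hGneg : ∀ c, GG χq (-c) = Real.pi - GG χq c := by
    intro c
    unfold GG
    rw [K_neg h.q, hG0]
    ring
  refine ⟨h.b0, h.s0, h.sb, ?_, ?_, hFneg, ?_, ?_, ?_, ?_, hGneg, ?_, ?_⟩
  · exact ((contDiff_const.mul (K_smooth h.p))).sub contDiff_const
  · intro c hc
    have h1 : FF χp (-c) = -(2 * Real.pi) := by
      unfold FF
      have hs := h.s0
      rw [K_zero h.p (by linarith) (by nlinarith)]
      ring
    have h2 := hFneg c
    linarith
  · intro c h1 h2
    rw [(hdF c).deriv]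
    have : 0 < J χp c := J_pos h.p (by nlinarith)
    linarith
  · intro c h1 _
    rw [(hdF c).deriv]
    have := key h.p h1
    unfold FF
    nlinarith
  · exact contDiff_const.sub (contDiff_const.mul (K_smooth h.q))
  · intro c hc
    have h1 : GG χq (-c) = Real.pi := by
      unfold GG
      have hs := h.b0
      rw [K_zero h.q (by linarith) (by nlinarith)]
      ring
    have h2 := hGneg c
    linarith
  · intro c h1 h2
    rw [(hdG c).deriv]
    have : 0 < J χq c := J_pos h.q (by nlinarith)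
    linarith
  · intro c h1 _
    rw [(hdG c).deriv]
    have := key h.q h1
    unfold GG
    nlinarith

end

end Pool.Agent.Lib.MP_d2b992_gt.T
end
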